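import Pool.Agent.H573.AHB.PvK

/-!
# MP_2738db_nt: the signatures (N, m, n) and (m, n, N), where m and n have two common prime factors

`Congruent N z G` concerns the solutions of `a^l + b^m = c^n` and of `b^m + c^n = a^l` in coprime
`b, c` with `N ∣ l`, such that two distinct primes `≤ z` (odd primes for the second equation) divide
both `m` and `n`. It says: either `a` is divisible by all primes `≤ z` (all odd ones for the second
equation) dividing `m` and `n` and by all elements of `G`, and is zero or at least `exp(z)`; or `a`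
is prime to all these primes, every element of `G` divides `b`, `c` or
`b^(2m) - b^m c^n + c^(2n) = a^(2l) + a^l b^m + b^(2m)` resp. `b^(2m) + b^m c^n + c^(2n)`, and if one
of `2`, `3` is among the primes, `bc` is divisible by all elements of `G` and is zero or at least
`exp(z)`. For the second equation with even `m`, `n`, one odd prime `p ≤ z` dividing `m` and `n` with
`p ≡ 3 (mod 4)`, or not dividing `a`, suffices for this conclusion on `bc`.

(1) There is a set `S` of primes, of positive logarithmic proportion (the sum of `1/s` over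
`s ∈ S ∩ [X^{5/8}, X]` is bounded below), such that `Congruent s (s^δ) G` for all `s ∈ S`, with
a set `G` of at least `s^δ` primes `q ≡ 1 (mod s)`.
(2) For every `η > 0` there is `κ > 0` such that `Congruent N (N^κ) ∅` holds for all but at most
`η X` integers `N ≤ X`, for all large `X`.
-/

namespace Pool.Agent.Results.MP_2738db_nt.EqualSmallExponentsManyPrimes

/-- `p` is a prime dividing `m` and `n`, and `p ≤ z` -/
def Small (z : ℝ) (m n p : ℕ) : Prop :=
  p.Prime ∧ p ∣ m ∧ p ∣ n ∧ (p : ℝ) ≤ z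

/-- If `a^l + b^m = c^n` with coprime `b, c` and positive exponents, `N ∣ l`, and `m` and `n` have
two distinct common prime factors `≤ z`, then either `a` is divisible by all elements of `G` and by
all common prime factors `≤ z` of `m` and `n`, and `a = 0` or `a ≥ exp(z)`; or no common prime
factor `≤ z` of `m` and `n` divides `a`, every element of `G` divides `b`, `c` or
`a^(2l) + a^l b^m + b^(2m)`, and if `2` or `3` is a common prime factor, `bc` is divisible by all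
elements of `G`, and `bc = 0` or `bc ≥ exp(z)`. -/
def Difference (N : ℕ) (z : ℝ) (G : Finset ℕ) : Prop :=
  ∀ a b c l m n : ℕ, 0 < l → 0 < m → 0 < n → Nat.Coprime b c → N ∣ l →
    a ^ l + b ^ m = c ^ n → (∃ p r, Small z m n p ∧ Small z m n r ∧ p ≠ r) →
      ((∀ q ∈ G, q ∣ a) ∧ (∀ p, Small z m n p → p ∣ a) ∧ (a ≠ 0 → Real.exp z ≤ a)) ∨
      ((∀ p, Small z m n p → ¬ p ∣ a) ∧
        (∀ q ∈ G, q ∣ b * c * (a ^ (2 * l) + a ^ l * b ^ m + b ^ (2 * m))) ∧
        (Small z m n 2 ∨ Small z m n 3 → (∀ q ∈ G, q ∣ b * c) ∧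
          (b * c ≠ 0 → Real.exp z ≤ (b * c : ℕ))))

/-- The same for `b^m + c^n = a^l` and the odd common prime factors `≤ z` of `m` and `n`, with
`b^(2m) + b^m c^n + c^(2n)` in the place of `a^(2l) + a^l b^m + b^(2m)`. Moreover, if `m` and `n` are
even and have an odd common prime factor `p ≤ z` with `p ≡ 3 (mod 4)` or `p ∤ a`, then `bc` is
divisible by all elements of `G`, and `bc = 0` or `bc ≥ exp(z)`. -/
def Sum (N : ℕ) (z : ℝ) (G : Finset ℕ) : Prop :=
  ∀ a b c l m n : ℕ, 0 < l → 0 < m → 0 < n → Nat.Coprime b c → N ∣ l →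
    b ^ m + c ^ n = a ^ l →
    ((∃ p r, (Small z m n p ∧ p ≠ 2) ∧ (Small z m n r ∧ r ≠ 2) ∧ p ≠ r) →
      ((∀ q ∈ G, q ∣ a) ∧ (∀ p, Small z m n p ∧ p ≠ 2 → p ∣ a) ∧ Real.exp z ≤ a) ∨
      ((∀ p, Small z m n p ∧ p ≠ 2 → ¬ p ∣ a) ∧
        (∀ q ∈ G, q ∣ b * c * (b ^ (2 * m) + b ^ m * c ^ n + c ^ (2 * n))) ∧
        (Small z m n 3 → (∀ q ∈ G, q ∣ b * c) ∧
          (b * c ≠ 0 → Real.exp z ≤ (b * c : ℕ))))) ∧
    (Even m → Even n → (∃ p, Small z m n p ∧ p ≠ 2 ∧ (p % 4 = 3 ∨ ¬ p ∣ a)) →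
      (∀ q ∈ G, q ∣ b * c) ∧ (b * c ≠ 0 → Real.exp z ≤ (b * c : ℕ)))

/-- `Difference` and `Sum` -/
def Congruent (N : ℕ) (z : ℝ) (G : Finset ℕ) : Prop :=
  Difference N z G ∧ Sum N z G

open Pool.Agent.H573.AHB

theorem result :
    (∃ δ : ℝ, 0 < δ ∧ ∃ S : Set ℕ, (∀ s ∈ S, s.Prime) ∧
      (∃ c : ℝ, 0 < c ∧ ∃ X₀ : ℕ, ∀ X : ℕ, X₀ ≤ X →
        c ≤ ∑ᶠ s ∈ {s : ℕ | s ∈ S ∧ (X : ℝ) ^ (5 / 8 : ℝ) ≤ s ∧ s ≤ X}, (1 : ℝ) / s) ∧
      ∀ s ∈ S, ∃ G : Finset ℕ, (s : ℝ) ^ δ ≤ (G.card : ℝ) ∧ (∀ q ∈ G, q.Prime ∧ s ∣ q - 1) ∧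
        Congruent s ((s : ℝ) ^ δ) G) ∧
    (∀ η : ℝ, 0 < η → ∃ κ : ℝ, 0 < κ ∧ ∃ X₁ : ℕ, ∀ X : ℕ, X₁ ≤ X →
      (Set.ncard {N : ℕ | N ≤ X ∧ ¬ Congruent N ((N : ℝ) ^ κ) ∅} : ℝ) ≤ η * X) := by
  obtain ⟨δ, hδ0, S, hS, hdens⟩ := engine_diff6
  have main : ∀ s ∈ S, ∃ G : Finset ℕ, (s : ℝ) ^ δ ≤ (G.card : ℝ) ∧
      (∀ q ∈ G, q.Prime ∧ s ∣ q - 1) ∧ Congruent s ((s : ℝ) ^ δ) G := by
    intro s hs
    obtain ⟨hsp, hs2, G, hG1, hG2⟩ := hS s hs
    refine ⟨G, hG1, fun q hq => ⟨(hG2 q hq).1, (hG2 q hq).2.2.1⟩, ?_, ?_⟩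
    · rintro a b c l m n hl0 hm0 hn0 hcobc ⟨l', rfl⟩ heq hex
      have hs1 : (1 : ℝ) ≤ s := by exact_mod_cast (by omega : 1 ≤ s)
      have hGne : G.Nonempty := by
        rw [← Finset.card_pos]
        have h1 : (0 : ℝ) < (s : ℝ) ^ δ := by positivity
        have h2 : (0 : ℝ) < (G.card : ℝ) := lt_of_lt_of_le h1 hG1
        exact_mod_cast h2
      rcases Nat.eq_zero_or_pos a with ha | ha
      · left
        rw [ha]
        exact ⟨fun q _ => dvd_zero q, fun p _ => dvd_zero p, fun h => absurd rfl h⟩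
      have hl' : l' ≠ 0 := by
        rintro rfl
        simp at hl0
      have hcoc : Nat.Coprime c b := hcobc.symm
      have hd : ∀ r : ℕ, r.Prime → ∀ x k : ℕ, (r : ℤ) ∣ (x : ℤ) ^ k → r ∣ x := by
        intro r hr x k h
        rw [← Nat.cast_pow] at h
        exact hr.dvd_of_dvd_pow (Int.natCast_dvd_natCast.mp h)
      have hd' : ∀ r x k : ℕ, k ≠ 0 → r ∣ x → (r : ℤ) ∣ (x : ℤ) ^ k := by
        intro r x k hk h
        rw [← Nat.cast_pow]
        exact Int.natCast_dvd_natCast.mpr (dvd_pow h hk)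
      -- the equation with exponents `s`, `K`, `K`
      have hlift : ∀ K m' n' : ℕ, m = K * m' → n = K * n' →
          ((a : ℤ) ^ l') ^ s + ((b : ℤ) ^ m') ^ K = ((c : ℤ) ^ n') ^ K := by
        intro K m' n' h1 h2
        rw [← pow_mul, ← pow_mul, ← pow_mul, mul_comm l', mul_comm m', mul_comm n', ← h1, ← h2]
        exact_mod_cast heq
      have hne0 : ∀ K m' n' : ℕ, m = K * m' → n = K * n' →
          (c : ℤ) ^ n' - (b : ℤ) ^ m' ≠ 0 ∧ (c : ℤ) ^ n' + (b : ℤ) ^ m' ≠ 0 := by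
        intro K m' n' h1 h2
        have h3 := hlift K m' n' h1 h2
        have h4 : (0 : ℤ) < ((a : ℤ) ^ l') ^ s := by positivity
        have hlt : (b ^ m') < c ^ n' := by
          by_contra hcon
          push Not at hcon
          have h5 : ((c : ℤ) ^ n') ^ K ≤ ((b : ℤ) ^ m') ^ K := by
            apply pow_le_pow_left₀ (by positivity)
            exact_mod_cast hcon
          linarith
        have h6 : ((b : ℤ) ^ m') < (c : ℤ) ^ n' := by exact_mod_cast hlt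
        have h7 : (0 : ℤ) ≤ (b : ℤ) ^ m' := by positivity
        constructor
        · intro h
          linarith
        · intro h
          linarith
      have hodd : ∀ p r : ℕ, Small ((s : ℝ) ^ δ) m n p → Small ((s : ℝ) ^ δ) m n r → p ≠ 2 →
          r ≠ 2 → p ≠ r → ∀ q ∈ G, (p ∣ a ∧ r ∣ a ∧ q ∣ a) ∨ (¬ p ∣ a ∧ ¬ r ∣ a ∧
            q ∣ b * c * (a ^ (2 * (s * l')) + a ^ (s * l') * b ^ m + b ^ (2 * m)) ∧
            (p = 3 ∨ r = 3 → q ∣ b * c)) := by
        rintro p r ⟨hp, hpm, hpn, hpd⟩ ⟨hr, hrm, hrn, hrd⟩ hp2 hr2 hne q hq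
        obtain ⟨k1, k2, k3, k4, -⟩ := hG2 q hq
        have hcp := (Nat.coprime_primes hp hr).mpr hne
        obtain ⟨m', hm'⟩ := hcp.mul_dvd_of_dvd_of_dvd hpm hrm
        obtain ⟨n', hn'⟩ := hcp.mul_dvd_of_dvd_of_dvd hpn hrn
        obtain ⟨z1, z2⟩ := hne0 _ m' n' hm' hn'
        rcases odd_pair s q p r hsp hs2 k1 k3 hp hr hp2 hr2 hne
          (fun i j hPR e1 e2 => k4 i j hPR (by rw [← e1]; exact hpd) (by rw [← e2]; exact hrd))
          a l' hl' ((b : ℤ) ^ m') ((c : ℤ) ^ n') ((Nat.isCoprime_iff_coprime.mpr hcoc).pow)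
          z1 z2 (hlift _ _ _ hm' hn') with h1 | ⟨h1, h2, h3⟩
        · exact Or.inl h1
        · refine Or.inr ⟨h1, h2, ?_⟩
          rcases h3 with h3 | ⟨t1, t2, h3⟩
          · have h4 : q ∣ b * c := by
              rcases (Nat.prime_iff_prime_int.mp k1).dvd_or_dvd h3 with h | h
              · exact (hd _ k1 b m' h).mul_right c
              · exact (hd _ k1 c n' h).mul_left b
            exact ⟨h4.mul_right _, fun _ => h4⟩
          · exact ⟨sixth_dvd q _ a b c (s * l') m n m' n'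
              (prod_mod_six _ _ (prime_mod_six _ hp hp2 t1) (prime_mod_six _ hr hr2 t2))
              hm' hn' heq h3, fun h => (h.elim t1 t2).elim⟩
      have htwo : ∀ r : ℕ, Small ((s : ℝ) ^ δ) m n 2 → Small ((s : ℝ) ^ δ) m n r →
          r ≠ 2 → ∀ q ∈ G, (2 ∣ a ∧ r ∣ a ∧ q ∣ a) ∨ (¬ 2 ∣ a ∧ ¬ r ∣ a ∧ q ∣ b * c) := by
        rintro r ⟨-, hpm, hpn, -⟩ ⟨hr, hrm, hrn, hrd⟩ hr2 q hq
        obtain ⟨j, rfl⟩ : ∃ j, r = 2 * j + 1 := hr.odd_of_ne_two hr2
        have hj := hr.two_le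
        have hOK : OKm j := ⟨by omega, hr⟩
        obtain ⟨k1, k2, k3, -, k4, -⟩ := hG2 q hq
        obtain ⟨k5, k6⟩ := k4 j hrd
        have hcp := (Nat.coprime_primes Nat.prime_two hr).mpr (Ne.symm hr2)
        obtain ⟨m', hm'⟩ := hcp.mul_dvd_of_dvd_of_dvd hpm hrm
        obtain ⟨n', hn'⟩ := hcp.mul_dvd_of_dvd_of_dvd hpn hrn
        obtain ⟨z1, z2⟩ := hne0 _ m' n' hm' hn'
        rcases diff2_loc j hOK s q hsp hs2 k1 k5 k3 k6 ((a : ℤ) ^ l') ((b : ℤ) ^ m')
          ((c : ℤ) ^ n') ((Nat.isCoprime_iff_coprime.mpr hcoc).pow) z1 z2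
          (hlift _ _ _ hm' hn') with ⟨h1, h2, h3⟩ | ⟨h1, h2, h3⟩
        · exact Or.inl ⟨hd 2 Nat.prime_two a l' h1, hd _ hr a l' h2, hd _ k1 a l' h3⟩
        · refine Or.inr ⟨fun h => h1 (hd' 2 a l' hl' h), fun h => h2 (hd' _ a l' hl' h), ?_⟩
          rcases (Nat.prime_iff_prime_int.mp k1).dvd_or_dvd h3 with h | h
          · exact (hd _ k1 b m' h).mul_right c
          · exact (hd _ k1 c n' h).mul_left b
      have hmain : ((∀ q, q ∈ G → q ∣ a) ∧ ∀ p, Small ((s : ℝ) ^ δ) m n p → p ∣ a) ∨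
          ((∀ p, Small ((s : ℝ) ^ δ) m n p → ¬ p ∣ a) ∧
            (∀ q, q ∈ G →
              q ∣ b * c * (a ^ (2 * (s * l')) + a ^ (s * l') * b ^ m + b ^ (2 * m))) ∧
            (Small ((s : ℝ) ^ δ) m n 2 ∨ Small ((s : ℝ) ^ δ) m n 3 →
              ∀ q, q ∈ G → q ∣ b * c)) := by
        refine side5 a (Small ((s : ℝ) ^ δ) m n) (fun q => q ∈ G)
          (fun q => q ∣ b * c * (a ^ (2 * (s * l')) + a ^ (s * l') * b ^ m + b ^ (2 * m)))
          (fun q => q ∣ b * c) hex hGne ?_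
        intro p r hp hr hne q hq
        by_cases hp2 : p = 2
        · subst hp2
          rcases htwo r hp hr (Ne.symm hne) q hq with ⟨h1, h2, h3⟩ | ⟨h1, h2, h3⟩
          · exact Or.inl ⟨h1, h2, h3⟩
          · exact Or.inr ⟨h1, h2, h3.mul_right _, fun _ => h3⟩
        · by_cases hr2 : r = 2
          · subst hr2
            rcases htwo p hr hp hp2 q hq with ⟨h1, h2, h3⟩ | ⟨h1, h2, h3⟩
            · exact Or.inl ⟨h2, h1, h3⟩
            · exact Or.inr ⟨h2, h1, h3.mul_right _, fun _ => h3⟩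
          · rcases hodd p r hp hr hp2 hr2 hne q hq with h | ⟨h1, h2, h3, h4⟩
            · exact Or.inl h
            · refine Or.inr ⟨h1, h2, h3, ?_⟩
              rintro (h | h)
              · exact absurd h hp2
              · exact h4 (Or.inl h)
      have hbig : ∀ x : ℕ, (∀ r, r ∈ G → r ∣ x) → x ≠ 0 → Real.exp ((s : ℝ) ^ δ) ≤ x := by
        intro x hx hx0
        refine (Real.exp_le_exp.mpr hG1).trans (big_of_dvd G x hx0 ?_)
        intro q hq
        obtain ⟨k1, k2, -⟩ := hG2 q hq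
        exact ⟨k1, by omega, hx q hq⟩
      rcases hmain with ⟨h1, h2⟩ | ⟨h1, h3, h2⟩
      · exact Or.inl ⟨h1, h2, hbig a h1⟩
      · exact Or.inr ⟨h1, h3, fun h => ⟨h2 h, hbig (b * c) (h2 h)⟩⟩
    · rintro a b c l m n hl0 hm0 hn0 hcobc ⟨l', rfl⟩ heq
      have hs1 : (1 : ℝ) ≤ s := by exact_mod_cast (by omega : 1 ≤ s)
      have hGne : G.Nonempty := by
        rw [← Finset.card_pos]
        have h1 : (0 : ℝ) < (s : ℝ) ^ δ := by positivity
        have h2 : (0 : ℝ) < (G.card : ℝ) := lt_of_lt_of_le h1 hG1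
        exact_mod_cast h2
      have hl' : l' ≠ 0 := by
        rintro rfl
        simp at hl0
      have hbig : ∀ x : ℕ, (∀ r, r ∈ G → r ∣ x) → x ≠ 0 → Real.exp ((s : ℝ) ^ δ) ≤ x := by
        intro x hx hx0
        refine (Real.exp_le_exp.mpr hG1).trans (big_of_dvd G x hx0 ?_)
        intro q hq
        obtain ⟨k1, k2, -⟩ := hG2 q hq
        exact ⟨k1, by omega, hx q hq⟩
      refine ⟨fun hex => ?_, fun hem hen hex => ?_⟩
      swap
      · obtain ⟨p, ⟨hp, hpm, hpn, hpd⟩, hp2, hpa⟩ := hex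
        have hqbc : ∀ q ∈ G, q ∣ b * c := by
          intro q hq
          obtain ⟨k1, k2, k3, -, k4, k5⟩ := hG2 q hq
          exact sum_even s q p hsp hs2 k1 k3 k5 hp hp2
            (fun i e => k4 i (by rw [← e]; exact hpd)) a b c l' m n hl' hcobc hem hen hpm hpn
            heq hpa
        exact ⟨hqbc, hbig (b * c) hqbc⟩
      have hcoc : Nat.Coprime c b := hcobc.symm
      have hd : ∀ r : ℕ, r.Prime → ∀ x k : ℕ, (r : ℤ) ∣ (x : ℤ) ^ k → r ∣ x := by
        intro r hr x k h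
        rw [← Nat.cast_pow] at h
        exact hr.dvd_of_dvd_pow (Int.natCast_dvd_natCast.mp h)
      -- `b^m` and `c^n` are not both `0`, and not both `1`
      have hbc0 : ¬ (b = 0 ∧ c = 0) := by
        rintro ⟨rfl, rfl⟩
        exact absurd hcobc (by decide)
      have ha : a ≠ 0 := by
        rintro rfl
        rw [zero_pow hl0.ne'] at heq
        have h1 : b ^ m = 0 := by omega
        have h2 : c ^ n = 0 := by omega
        exact hbc0 ⟨(pow_eq_zero_iff hm0.ne').mp h1, (pow_eq_zero_iff hn0.ne').mp h2⟩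
      have h2pow : a ^ (s * l') ≠ 2 := by
        intro h
        have h3 : 3 ≤ s * l' := by
          have : 1 ≤ l' := Nat.one_le_iff_ne_zero.mpr hl'
          nlinarith
        rcases Nat.lt_or_ge a 2 with h4 | h4
        · have h5 : a = 1 := by omega
          rw [h5, one_pow] at h
          omega
        · have h5 : 2 ^ 3 ≤ a ^ (s * l') :=
            (Nat.pow_le_pow_left h4 3).trans (Nat.pow_le_pow_right (by omega) h3)
          omega
      have hpair : ∀ p r : ℕ, (Small ((s : ℝ) ^ δ) m n p ∧ p ≠ 2) →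
          (Small ((s : ℝ) ^ δ) m n r ∧ r ≠ 2) → p ≠ r → ∀ q, q ∈ G →
          (p ∣ a ∧ r ∣ a ∧ q ∣ a) ∨ (¬ p ∣ a ∧ ¬ r ∣ a ∧
            q ∣ b * c * (b ^ (2 * m) + b ^ m * c ^ n + c ^ (2 * n)) ∧
            (p = 2 ∨ p = 3 → q ∣ b * c)) := by
        rintro p r ⟨⟨hp, hpm, hpn, hpd⟩, hp2⟩ ⟨⟨hr, hrm, hrn, hrd⟩, hr2⟩ hne q hq
        obtain ⟨k1, k2, k3, k4, -⟩ := hG2 q hq
        have hcp := (Nat.coprime_primes hp hr).mpr hne
        obtain ⟨m', hm'⟩ := hcp.mul_dvd_of_dvd_of_dvd hpm hrm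
        obtain ⟨n', hn'⟩ := hcp.mul_dvd_of_dvd_of_dvd hpn hrn
        have hKodd : Odd (p * r) := (hp.odd_of_ne_two hp2).mul (hr.odd_of_ne_two hr2)
        have hm'0 : m' ≠ 0 := by
          rintro rfl
          omega
        have hn'0 : n' ≠ 0 := by
          rintro rfl
          omega
        have hlift : ((a : ℤ) ^ l') ^ s + (-(b : ℤ) ^ m') ^ (p * r) =
            ((c : ℤ) ^ n') ^ (p * r) := by
          rw [hKodd.neg_pow, ← pow_mul, ← pow_mul, ← pow_mul, mul_comm l', mul_comm m',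
            mul_comm n', ← hm', ← hn']
          have h1 : (b : ℤ) ^ m + (c : ℤ) ^ n = (a : ℤ) ^ (s * l') := by exact_mod_cast heq
          rw [← h1]
          ring
        have hcop : IsCoprime ((c : ℤ) ^ n') (-(b : ℤ) ^ m') :=
          ((Nat.isCoprime_iff_coprime.mpr hcoc).pow (m := n') (n := m')).neg_right
        have z1 : (c : ℤ) ^ n' - (-(b : ℤ) ^ m') ≠ 0 := by
          intro h
          have h1 : (0 : ℤ) ≤ (c : ℤ) ^ n' := by positivity
          have h2 : (0 : ℤ) ≤ (b : ℤ) ^ m' := by positivity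
          have h3 : (c : ℤ) ^ n' = 0 := by linarith
          have h4 : (b : ℤ) ^ m' = 0 := by linarith
          apply hbc0
          constructor
          · exact_mod_cast (pow_eq_zero_iff hm'0).mp h4
          · exact_mod_cast (pow_eq_zero_iff hn'0).mp h3
        have z2 : (c : ℤ) ^ n' + (-(b : ℤ) ^ m') ≠ 0 := by
          intro h
          have h1 : c ^ n' = b ^ m' := by
            have : (c : ℤ) ^ n' = (b : ℤ) ^ m' := by linarith
            exact_mod_cast this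
          have h2 : Nat.Coprime (c ^ n') (b ^ m') := Nat.Coprime.pow _ _ hcoc
          rw [h1, Nat.coprime_self] at h2
          have h3 : b ^ m = 1 := by rw [hm', mul_comm, pow_mul, h2, one_pow]
          have h4 : c ^ n = 1 := by rw [hn', mul_comm, pow_mul, h1, h2, one_pow]
          apply h2pow
          rw [← heq, h3, h4]
        rcases odd_pair s q p r hsp hs2 k1 k3 hp hr hp2 hr2 hne
          (fun i j hPR e1 e2 => k4 i j hPR (by rw [← e1]; exact hpd) (by rw [← e2]; exact hrd))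
          a l' hl' (-(b : ℤ) ^ m') ((c : ℤ) ^ n') hcop z1 z2 hlift with h1 | ⟨h1, h2, h3⟩
        · exact Or.inl h1
        · refine Or.inr ⟨h1, h2, ?_⟩
          rcases h3 with h3 | ⟨t1, t2, h3⟩
          · have h4 : q ∣ b * c := by
              rcases (Nat.prime_iff_prime_int.mp k1).dvd_or_dvd h3 with h | h
              · exact (hd _ k1 b m' ((dvd_neg).mp h)).mul_right c
              · exact (hd _ k1 c n' h).mul_left b
            exact ⟨h4.mul_right _, fun _ => h4⟩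
          · exact ⟨third_dvd q _ b c m n m' n'
              (prod_mod_six _ _ (prime_mod_six _ hp hp2 t1) (prime_mod_six _ hr hr2 t2))
              hm' hn' h3, fun h => (h.elim hp2 t1).elim⟩
      rcases side5 a (fun p => Small ((s : ℝ) ^ δ) m n p ∧ p ≠ 2) (fun q => q ∈ G)
          (fun q => q ∣ b * c * (b ^ (2 * m) + b ^ m * c ^ n + c ^ (2 * n)))
          (fun q => q ∣ b * c) hex hGne hpair with ⟨h1, h2⟩ | ⟨h1, h2, h3⟩
      · exact Or.inl ⟨h1, h2, hbig a h1 ha⟩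
      · exact Or.inr ⟨h1, h2, fun h => ⟨h3 (Or.inr ⟨h, by norm_num⟩),
          hbig (b * c) (h3 (Or.inr ⟨h, by norm_num⟩))⟩⟩
  refine ⟨⟨δ, hδ0, S, fun s hs => (hS s hs).1, hdens, main⟩, ?_⟩
  refine almost_all_of S (fun s hs => (hS s hs).1) hdens (fun z N => Congruent N z ∅) δ hδ0 0
    ?_ ?_
  · rintro s hs - N hsN
    obtain ⟨G, -, -, hOD, hOD'⟩ := main s hs
    constructor
    · intro a b c l m n hl hm hn hco hNl heq hex
      rcases hOD a b c l m n hl hm hn hco (hsN.trans hNl) heq hex with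
        ⟨-, h3, h4⟩ | ⟨h3, -, h4⟩
      · exact Or.inl ⟨fun q hq => absurd hq (Finset.notMem_empty q), h3, h4⟩
      · exact Or.inr ⟨h3, fun q hq => absurd hq (Finset.notMem_empty q),
          fun h => ⟨fun q hq => absurd hq (Finset.notMem_empty q), (h4 h).2⟩⟩
    · intro a b c l m n hl hm hn hco hNl heq
      obtain ⟨hOD1, hOD2⟩ := hOD' a b c l m n hl hm hn hco (hsN.trans hNl) heq
      refine ⟨fun hex => ?_, fun hem hen hex =>
        ⟨fun q hq => absurd hq (Finset.notMem_empty q), (hOD2 hem hen hex).2⟩⟩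
      rcases hOD1 hex with ⟨-, h3, h4⟩ | ⟨h3, -, h4⟩
      · exact Or.inl ⟨fun q hq => absurd hq (Finset.notMem_empty q), h3, h4⟩
      · exact Or.inr ⟨h3, fun q hq => absurd hq (Finset.notMem_empty q),
          fun h => ⟨fun q hq => absurd hq (Finset.notMem_empty q), (h4 h).2⟩⟩
  · rintro z z' N hz ⟨hQ, hQ'⟩
    have hup : ∀ m n p, Small z m n p → Small z' m n p := fun m n p hp =>
      ⟨hp.1, hp.2.1, hp.2.2.1, hp.2.2.2.trans hz⟩
    have hle : ∀ x : ℝ, Real.exp z' ≤ x → Real.exp z ≤ x := fun x hx =>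
      (Real.exp_le_exp.mpr hz).trans hx
    constructor
    · rintro a b c l m n hl hm hn hco hNl heq ⟨p, r, hp, hr, hne⟩
      rcases hQ a b c l m n hl hm hn hco hNl heq ⟨p, r, hup m n p hp, hup m n r hr, hne⟩ with
        ⟨h1, h2, h3⟩ | ⟨h1, h3, h2⟩
      · exact Or.inl ⟨h1, fun p hp => h2 p (hup m n p hp), fun hx => hle _ (h3 hx)⟩
      · exact Or.inr ⟨fun p hp => h1 p (hup m n p hp), h3, fun h =>
          ⟨(h2 (h.imp (hup m n 2) (hup m n 3))).1,
            fun hx => hle _ ((h2 (h.imp (hup m n 2) (hup m n 3))).2 hx)⟩⟩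
    · intro a b c l m n hl hm hn hco hNl heq
      obtain ⟨hQ1, hQ2⟩ := hQ' a b c l m n hl hm hn hco hNl heq
      refine ⟨?_, fun hem hen ⟨p, hp, hp2⟩ => ⟨(hQ2 hem hen ⟨p, hup m n p hp, hp2⟩).1,
        fun hx => hle _ ((hQ2 hem hen ⟨p, hup m n p hp, hp2⟩).2 hx)⟩⟩
      rintro ⟨p, r, hp, hr, hne⟩
      rcases hQ1 ⟨p, r, ⟨hup m n p hp.1, hp.2⟩, ⟨hup m n r hr.1, hr.2⟩, hne⟩ with
        ⟨h1, h2, h3⟩ | ⟨h1, h3, h2⟩
      · exact Or.inl ⟨h1, fun p hp => h2 p ⟨hup m n p hp.1, hp.2⟩, hle _ h3⟩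
      · exact Or.inr ⟨fun p hp => h1 p ⟨hup m n p hp.1, hp.2⟩, h3, fun h =>
          ⟨(h2 (hup m n 3 h)).1, fun hx => hle _ ((h2 (hup m n 3 h)).2 hx)⟩⟩

end Pool.Agent.Results.MP_2738db_nt.EqualSmallExponentsManyPrimes
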