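import Pool.Agent.H573.AHB.UnJ
import Pool.Agent.H573.AHB.DnB

/-!
# MP_2738db_nt: the signatures (2N, m, 2N)

`OnlyDivisible N z G` says: every solution of `a^l + b^m = c^n` in coprime `a, b` with `b` odd,
`2N ∣ l`, `2N ∣ n`, such that `m` has an odd prime factor `p ≤ z`, is trivial modulo all these prime
factors of `m` and modulo all elements of `G`, and `a` or `c` is zero or at least `exp(z)`.

(1) There is a set `S` of primes, of positive logarithmic proportion (the sum of `1/s` over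
`s ∈ S ∩ [X^{5/8}, X]` is bounded below), such that `OnlyDivisible s (s^δ) G` for all `s ∈ S`, with
a set `G` of at least `s^δ` primes `q ≡ 1 (mod s)`.
(2) For every `η > 0` there is `κ > 0` such that `OnlyDivisible N (N^κ) ∅` holds for all but at most
`η X` integers `N ≤ X`, for all large `X`.
-/

namespace Pool.Agent.Results.MP_2738db_nt.EvenDiffManyPrimes

/-- `p` is an odd prime factor of `m` with `p ≤ z` -/
def Small (z : ℝ) (m p : ℕ) : Prop :=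
  p.Prime ∧ p ≠ 2 ∧ p ∣ m ∧ (p : ℝ) ≤ z

/-- If `a^l + b^m = c^n` with coprime `a, b`, odd `b` and positive exponents, `2N ∣ l`, `2N ∣ n`,
and `m` has an odd prime factor `≤ z`, then some `x ∈ {a, c}` is divisible by all elements of `G`
and by all odd prime factors `≤ z` of `m`, and `x = 0` or `x ≥ exp(z)`. -/
def OnlyDivisible (N : ℕ) (z : ℝ) (G : Finset ℕ) : Prop :=
  ∀ a b c l m n : ℕ, 0 < l → 0 < m → 0 < n → Nat.Coprime a b → Odd b → 2 * N ∣ l → 2 * N ∣ n →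
    a ^ l + b ^ m = c ^ n → (∃ p, Small z m p) →
      ∃ x, (x = a ∨ x = c) ∧ (∀ q ∈ G, q ∣ x) ∧ (∀ p, Small z m p → p ∣ x) ∧
        (x ≠ 0 → Real.exp z ≤ x)

open Pool.Agent.H573.AHB

theorem result :
    (∃ δ : ℝ, 0 < δ ∧ ∃ S : Set ℕ, (∀ s ∈ S, s.Prime) ∧
      (∃ c : ℝ, 0 < c ∧ ∃ X₀ : ℕ, ∀ X : ℕ, X₀ ≤ X →
        c ≤ ∑ᶠ s ∈ {s : ℕ | s ∈ S ∧ (X : ℝ) ^ (5 / 8 : ℝ) ≤ s ∧ s ≤ X}, (1 : ℝ) / s) ∧
      ∀ s ∈ S, ∃ G : Finset ℕ, (s : ℝ) ^ δ ≤ (G.card : ℝ) ∧ (∀ q ∈ G, q.Prime ∧ s ∣ q - 1) ∧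
        OnlyDivisible s ((s : ℝ) ^ δ) G) ∧
    (∀ η : ℝ, 0 < η → ∃ κ : ℝ, 0 < κ ∧ ∃ X₁ : ℕ, ∀ X : ℕ, X₁ ≤ X →
      (Set.ncard {N : ℕ | N ≤ X ∧ ¬ OnlyDivisible N ((N : ℝ) ^ κ) ∅} : ℝ) ≤ η * X) := by
  obtain ⟨δ, hδ0, S, hS, hdens⟩ := engine 1 le_rfl (W1 1) (usparse_W1 1 rfl)
  have main : ∀ s ∈ S, ∃ G : Finset ℕ, (s : ℝ) ^ δ ≤ (G.card : ℝ) ∧
      (∀ q ∈ G, q.Prime ∧ s ∣ q - 1) ∧ OnlyDivisible s ((s : ℝ) ^ δ) G := by
    intro s hs
    obtain ⟨hsp, hs2, G, hG1, hG2⟩ := hS s hs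
    refine ⟨G, hG1, fun q hq => ⟨(hG2 q hq).1, (hG2 q hq).2.2.2.1⟩, ?_⟩
    rintro a b c l m n hl0 hm0 hn0 hco hb ⟨l', rfl⟩ ⟨n', rfl⟩ heq hex
    have hs1 : (1 : ℝ) ≤ s := by exact_mod_cast (by omega : 1 ≤ s)
    have hGne : G.Nonempty := by
      rw [← Finset.card_pos]
      have h1 : (0 : ℝ) < (s : ℝ) ^ δ := by positivity
      have h2 : (0 : ℝ) < (G.card : ℝ) := lt_of_lt_of_le h1 hG1
      exact_mod_cast h2
    have hcoac : Nat.Coprime a c := by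
      rw [Nat.coprime_iff_gcd_eq_one] at *
      by_contra hcon
      obtain ⟨r, hr, hrd⟩ := Nat.exists_prime_and_dvd hcon
      have hra := hrd.trans (Nat.gcd_dvd_left _ _)
      have hrc := hrd.trans (Nat.gcd_dvd_right _ _)
      have h1 : r ∣ c ^ (2 * s * n') := hrc.trans (dvd_pow_self _ (by omega))
      have h2 : r ∣ a ^ (2 * s * l') := hra.trans (dvd_pow_self _ (by omega))
      rw [← heq] at h1
      have h3 := (Nat.dvd_add_right h2).mp h1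
      have h4 := hr.dvd_of_dvd_pow h3
      have h5 := Nat.dvd_gcd hra h4
      rw [hco] at h5
      exact hr.one_lt.ne' (Nat.dvd_one.mp h5)
    have hmain : (∀ r, r ∈ G ∨ Small ((s : ℝ) ^ δ) m r → r ∣ a) ∨
        (∀ r, r ∈ G ∨ Small ((s : ℝ) ^ δ) m r → r ∣ c) := by
      refine side a c hcoac (Small ((s : ℝ) ^ δ) m) (fun q => q ∈ G) (fun p hp => hp.1)
        (fun q hq => (hG2 q hq).1) hex hGne ?_
      rintro p ⟨hp, hp2, ⟨w, hw⟩, hpd⟩ q hq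
      obtain ⟨i, rfl⟩ : ∃ i, p = 2 * i + 1 := hp.odd_of_ne_two hp2
      have hi : 1 ≤ i := by
        have := hp.two_le
        omega
      obtain ⟨k1, k2, -, k4, k5⟩ := hG2 q hq
      obtain ⟨k6, k7⟩ := k5 i hpd
      have hmain := diff_loc i ⟨hi, hp⟩ s q hsp hs2 k1 k6 k4 k7 ((c : ℤ) ^ n') ((a : ℤ) ^ l')
        ((b : ℤ) ^ w) ((Int.odd_coe_nat b |>.mpr hb).pow)
        ((Nat.isCoprime_iff_coprime.mpr hcoac.symm).pow) (by
          rw [← pow_mul, ← pow_mul, ← pow_mul, mul_comm l', mul_comm n', mul_comm w, ← hw,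
            sub_eq_iff_eq_add, add_comm]
          exact_mod_cast heq.symm)
      have hd : ∀ r : ℕ, r.Prime → ∀ x k : ℕ, (r : ℤ) ∣ (x : ℤ) ^ k → r ∣ x := by
        intro r hr x k h
        rw [← Nat.cast_pow] at h
        exact hr.dvd_of_dvd_pow (Int.natCast_dvd_natCast.mp h)
      rcases hmain with ⟨h1, h2⟩ | ⟨h1, h2⟩
      · exact Or.inr ⟨hd _ hp c n' h1, hd _ k1 c n' h2⟩
      · exact Or.inl ⟨hd _ hp a l' h1, hd _ k1 a l' h2⟩
    have hbig : ∀ x : ℕ, (∀ r, r ∈ G ∨ Small ((s : ℝ) ^ δ) m r → r ∣ x) → x ≠ 0 →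
        Real.exp ((s : ℝ) ^ δ) ≤ x := by
      intro x hx hx0
      refine (Real.exp_le_exp.mpr hG1).trans (big_of_dvd G x hx0 ?_)
      intro q hq
      obtain ⟨k1, k2, -⟩ := hG2 q hq
      exact ⟨k1, by omega, hx q (Or.inl hq)⟩
    rcases hmain with h | h
    · exact ⟨a, Or.inl rfl, fun q hq => h q (Or.inl hq), fun p hp => h p (Or.inr hp), hbig a h⟩
    · exact ⟨c, Or.inr rfl, fun q hq => h q (Or.inl hq), fun p hp => h p (Or.inr hp), hbig c h⟩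
  refine ⟨⟨δ, hδ0, S, fun s hs => (hS s hs).1, hdens, main⟩, ?_⟩
  refine almost_all_of S (fun s hs => (hS s hs).1) hdens (fun z N => OnlyDivisible N z ∅) δ hδ0 0
    ?_ ?_
  · rintro s hs - N hsN a b c l m n hl hm hn hco hb h2l h2n heq hex
    obtain ⟨G, -, -, hOD⟩ := main s hs
    obtain ⟨x, h1, -, h3, h4⟩ := hOD a b c l m n hl hm hn hco hb
      ((Nat.mul_dvd_mul_left 2 hsN).trans h2l) ((Nat.mul_dvd_mul_left 2 hsN).trans h2n) heq hex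
    exact ⟨x, h1, fun q hq => absurd hq (Finset.notMem_empty q), h3, h4⟩
  · rintro z z' N hz hQ a b c l m n hl hm hn hco hb h2l h2n heq ⟨p, hp⟩
    have hup : ∀ p, Small z m p → Small z' m p := fun p hp => ⟨hp.1, hp.2.1, hp.2.2.1,
      hp.2.2.2.trans hz⟩
    obtain ⟨x, h1, h2, h3, h4⟩ := hQ a b c l m n hl hm hn hco hb h2l h2n heq ⟨p, hup p hp⟩
    exact ⟨x, h1, h2, fun p hp => h3 p (hup p hp),
      fun hx => (Real.exp_le_exp.mpr hz).trans (h4 hx)⟩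

end Pool.Agent.Results.MP_2738db_nt.EvenDiffManyPrimes
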