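import Pool.Agent.H573.AHB.PvO

/-!
# MP_2738db_nt: the signatures (2N, 2, n)

`Congruent N z G` says: for every solution of `a^l + b^m = c^n` in coprime `a, b` with `2N ∣ l`,
`2 ∣ m`, such that `n` has two distinct prime factors `≤ z`, either `a` is divisible by all prime
factors `≤ z` of `n` and by all elements of `G`, and is zero or at least `exp(z)`; or `a` is prime to
all prime factors `≤ z` of `n`, and `b` is divisible by all elements of `G` and is zero or at least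
`exp(z)`.

(1) There is a set `S` of primes, of positive logarithmic proportion (the sum of `1/s` over
`s ∈ S ∩ [X^{5/8}, X]` is bounded below), such that `Congruent s (s^δ) G` for all `s ∈ S`, with
a set `G` of at least `s^δ` primes `q ≡ 1 (mod s)`.
(2) For every `η > 0` there is `κ > 0` such that `Congruent N (N^κ) ∅` holds for all but at most
`η X` integers `N ≤ X`, for all large `X`.
-/

namespace Pool.Agent.Results.MP_2738db_nt.SumWithSquareManyPrimes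

/-- `p` is a prime factor of `n` with `p ≤ z` -/
def Small (z : ℝ) (n p : ℕ) : Prop :=
  p.Prime ∧ p ∣ n ∧ (p : ℝ) ≤ z

/-- If `a^l + b^m = c^n` with coprime `a, b` and positive exponents, `2N ∣ l`, `2 ∣ m`, and `n` has
two distinct prime factors `≤ z`, then the solution is congruent to a trivial one: either `a` is
divisible by all elements of `G` and by all prime factors `≤ z` of `n`, and `a = 0` or `a ≥ exp(z)`;
or no prime factor `≤ z` of `n` divides `a`, and `b` is divisible by all elements of `G`, and `b = 0`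
or `b ≥ exp(z)`. -/
def Congruent (N : ℕ) (z : ℝ) (G : Finset ℕ) : Prop :=
  ∀ a b c l m n : ℕ, 0 < l → 0 < m → 0 < n → Nat.Coprime a b → 2 * N ∣ l → 2 ∣ m →
    a ^ l + b ^ m = c ^ n → (∃ p r, Small z n p ∧ Small z n r ∧ p ≠ r) →
      ((∀ q ∈ G, q ∣ a) ∧ (∀ p, Small z n p → p ∣ a) ∧ (a ≠ 0 → Real.exp z ≤ a)) ∨
      ((∀ q ∈ G, q ∣ b) ∧ (∀ p, Small z n p → ¬ p ∣ a) ∧ (b ≠ 0 → Real.exp z ≤ b))

open Pool.Agent.H573.AHB

theorem result :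
    (∃ δ : ℝ, 0 < δ ∧ ∃ S : Set ℕ, (∀ s ∈ S, s.Prime) ∧
      (∃ c : ℝ, 0 < c ∧ ∃ X₀ : ℕ, ∀ X : ℕ, X₀ ≤ X →
        c ≤ ∑ᶠ s ∈ {s : ℕ | s ∈ S ∧ (X : ℝ) ^ (5 / 8 : ℝ) ≤ s ∧ s ≤ X}, (1 : ℝ) / s) ∧
      ∀ s ∈ S, ∃ G : Finset ℕ, (s : ℝ) ^ δ ≤ (G.card : ℝ) ∧ (∀ q ∈ G, q.Prime ∧ s ∣ q - 1) ∧
        Congruent s ((s : ℝ) ^ δ) G) ∧
    (∀ η : ℝ, 0 < η → ∃ κ : ℝ, 0 < κ ∧ ∃ X₁ : ℕ, ∀ X : ℕ, X₁ ≤ X →
      (Set.ncard {N : ℕ | N ≤ X ∧ ¬ Congruent N ((N : ℝ) ^ κ) ∅} : ℝ) ≤ η * X) := by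
  obtain ⟨δ, hδ0, S, hS, hdens⟩ := engine_sq
  have main : ∀ s ∈ S, ∃ G : Finset ℕ, (s : ℝ) ^ δ ≤ (G.card : ℝ) ∧
      (∀ q ∈ G, q.Prime ∧ s ∣ q - 1) ∧ Congruent s ((s : ℝ) ^ δ) G := by
    intro s hs
    obtain ⟨hsp, hs2, G, hG1, hG2⟩ := hS s hs
    refine ⟨G, hG1, fun q hq => ⟨(hG2 q hq).1, (hG2 q hq).2.2.1⟩, ?_⟩
    rintro a b c l m n hl0 hm0 hn0 hco ⟨l', rfl⟩ ⟨m', rfl⟩ heq hex
    have hs1 : (1 : ℝ) ≤ s := by exact_mod_cast (by omega : 1 ≤ s)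
    have hGne : G.Nonempty := by
      rw [← Finset.card_pos]
      have h1 : (0 : ℝ) < (s : ℝ) ^ δ := by positivity
      have h2 : (0 : ℝ) < (G.card : ℝ) := lt_of_lt_of_le h1 hG1
      exact_mod_cast h2
    have hl' : l' ≠ 0 := by
      rintro rfl
      simp at hl0
    have hd : ∀ r : ℕ, r.Prime → ∀ x k : ℕ, (r : ℤ) ∣ (x : ℤ) ^ k → r ∣ x := by
      intro r hr x k h
      rw [← Nat.cast_pow] at h
      exact hr.dvd_of_dvd_pow (Int.natCast_dvd_natCast.mp h)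
    have hd' : ∀ r x k : ℕ, k ≠ 0 → r ∣ x → (r : ℤ) ∣ (x : ℤ) ^ k := by
      intro r x k hk h
      rw [← Nat.cast_pow]
      exact Int.natCast_dvd_natCast.mpr (dvd_pow h hk)
    rcases Nat.eq_zero_or_pos a with ha | ha
    · left
      rw [ha]
      exact ⟨fun q _ => dvd_zero q, fun p _ => dvd_zero p, fun h => absurd rfl h⟩
    -- the pair `(2, r)`
    have htwo : ∀ r : ℕ, Small ((s : ℝ) ^ δ) n 2 → Small ((s : ℝ) ^ δ) n r → r ≠ 2 →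
        ∀ q ∈ G, (2 ∣ a ∧ r ∣ a ∧ q ∣ a) ∨ (¬ 2 ∣ a ∧ ¬ r ∣ a ∧ q ∣ b) := by
      rintro r ⟨-, h2n, -⟩ ⟨hr, hrn, hrd⟩ hr2 q hq
      obtain ⟨j, rfl⟩ : ∃ j, r = 2 * j + 1 := hr.odd_of_ne_two hr2
      have hj := hr.two_le
      obtain ⟨k1, k2, k3, -, k4⟩ := hG2 q hq
      obtain ⟨k5, k6, k7⟩ := k4 j hrd
      obtain ⟨w, hw⟩ := ((Nat.coprime_primes Nat.prime_two hr).mpr
        (Ne.symm hr2)).mul_dvd_of_dvd_of_dvd h2n hrn
      rcases mid_pair j ⟨by omega, hr⟩ s q hsp hs2 k1 k5 k3 k6 k7 a l' ((b : ℤ) ^ m')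
        ((c : ℤ) ^ w) hl' ha.ne' ((Nat.isCoprime_iff_coprime.mpr hco).pow) (by
          rw [← pow_mul, ← pow_mul, ← pow_mul, mul_comm l', mul_comm m', mul_comm w, ← hw]
          exact_mod_cast heq) with ⟨h1, h2, h3⟩ | ⟨h1, h2, h3⟩
      · exact Or.inl ⟨h1, h2, h3⟩
      · exact Or.inr ⟨h1, h2, hd _ k1 b m' h3⟩
    have hmain : ((∀ q, q ∈ G → q ∣ a) ∧ ∀ p, Small ((s : ℝ) ^ δ) n p → p ∣ a) ∨
        ((∀ q, q ∈ G → q ∣ b) ∧ ∀ p, Small ((s : ℝ) ^ δ) n p → ¬ p ∣ a) := by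
      refine side2 a b (Small ((s : ℝ) ^ δ) n) (fun q => q ∈ G) hex hGne ?_
      intro p r hPp hPr hne q hq
      by_cases hp2 : p = 2
      · subst hp2
        exact htwo r hPp hPr (Ne.symm hne) q hq
      by_cases hr2 : r = 2
      · subst hr2
        rcases htwo p hPr hPp hp2 q hq with ⟨h1, h2, h3⟩ | ⟨h1, h2, h3⟩
        · exact Or.inl ⟨h2, h1, h3⟩
        · exact Or.inr ⟨h2, h1, h3⟩
      obtain ⟨hp, hpn, hpd⟩ := hPp
      obtain ⟨hr, hrn, hrd⟩ := hPr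
      obtain ⟨i, rfl⟩ : ∃ i, p = 2 * i + 1 := hp.odd_of_ne_two hp2
      obtain ⟨j, rfl⟩ : ∃ j, r = 2 * j + 1 := hr.odd_of_ne_two hr2
      have hi := hp.two_le
      have hj := hr.two_le
      have hPR : PR i j := ⟨by omega, by omega, hp, hr, by omega⟩
      obtain ⟨k1, k2, k3, k4, -⟩ := hG2 q hq
      obtain ⟨k5, k6, k7⟩ := k4 i j hPR hpd hrd
      obtain ⟨w, hw⟩ := ((Nat.coprime_primes hp hr).mpr hne).mul_dvd_of_dvd_of_dvd hpn hrn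
      rcases sum_pr_all i j hPR _ (psiOf_spec (-1) (by norm_num) i j hPR) s q hsp hs2 k1 k5 k6 k3
        k7 ((a : ℤ) ^ l') ((b : ℤ) ^ m') ((c : ℤ) ^ w)
        ((Nat.isCoprime_iff_coprime.mpr hco).pow) (by
          rw [← pow_mul, ← pow_mul, ← pow_mul, mul_comm l', mul_comm m', mul_comm w, ← hw]
          exact_mod_cast heq) with ⟨h1, h2, h3⟩ | ⟨h1, h2, h3⟩
      · exact Or.inl ⟨hd _ hp a l' h1, hd _ hr a l' h2, hd _ k1 a l' h3⟩
      · exact Or.inr ⟨fun h => h1 (hd' _ a l' hl' h), fun h => h2 (hd' _ a l' hl' h),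
          hd _ k1 b m' h3⟩
    have hbig : ∀ x : ℕ, (∀ r, r ∈ G → r ∣ x) → x ≠ 0 → Real.exp ((s : ℝ) ^ δ) ≤ x := by
      intro x hx hx0
      refine (Real.exp_le_exp.mpr hG1).trans (big_of_dvd G x hx0 ?_)
      intro q hq
      obtain ⟨k1, k2, -⟩ := hG2 q hq
      exact ⟨k1, by omega, hx q hq⟩
    rcases hmain with ⟨h1, h2⟩ | ⟨h1, h2⟩
    · exact Or.inl ⟨h1, h2, hbig a h1⟩
    · exact Or.inr ⟨h1, h2, hbig b h1⟩
  refine ⟨⟨δ, hδ0, S, fun s hs => (hS s hs).1, hdens, main⟩, ?_⟩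
  refine almost_all_of S (fun s hs => (hS s hs).1) hdens (fun z N => Congruent N z ∅) δ hδ0 0
    ?_ ?_
  · rintro s hs - N hsN a b c l m n hl hm hn hco h2l h2m heq hex
    obtain ⟨G, -, -, hOD⟩ := main s hs
    rcases hOD a b c l m n hl hm hn hco ((Nat.mul_dvd_mul_left 2 hsN).trans h2l) h2m heq hex with
      ⟨-, h3, h4⟩ | ⟨-, h3, h4⟩
    · exact Or.inl ⟨fun q hq => absurd hq (Finset.notMem_empty q), h3, h4⟩
    · exact Or.inr ⟨fun q hq => absurd hq (Finset.notMem_empty q), h3, h4⟩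
  · rintro z z' N hz hQ a b c l m n hl hm hn hco h2l h2m heq ⟨p, r, hp, hr, hne⟩
    have hup : ∀ p, Small z n p → Small z' n p := fun p hp => ⟨hp.1, hp.2.1, hp.2.2.trans hz⟩
    have hle : ∀ x : ℝ, Real.exp z' ≤ x → Real.exp z ≤ x := fun x hx =>
      (Real.exp_le_exp.mpr hz).trans hx
    rcases hQ a b c l m n hl hm hn hco h2l h2m heq ⟨p, r, hup p hp, hup r hr, hne⟩ with
      ⟨h1, h2, h3⟩ | ⟨h1, h2, h3⟩
    · exact Or.inl ⟨h1, fun p hp => h2 p (hup p hp), fun hx => hle _ (h3 hx)⟩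
    · exact Or.inr ⟨h1, fun p hp => h2 p (hup p hp), fun hx => hle _ (h3 hx)⟩

end Pool.Agent.Results.MP_2738db_nt.SumWithSquareManyPrimes
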